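import Pool.Agent.Helper64.GQ.Defs

/-!
# GQ, block Q4 (Loewy): cyclic products
-/

set_option autoImplicit false

namespace Pool.Agent.GQ

/-- cyclic product of size three -/
def cyc {k : Type*} [Mul k] {m : ℕ} (A : Matrix (Fin m) (Fin m) k) (i j l : Fin m) : k := A i j * A j l * A l i

/-- the cyclic products of `A'` are those of `A` -/
def TI {k : Type*} [Mul k] {m : ℕ} (A A' : Matrix (Fin m) (Fin m) k) (i j l : Fin m) : Prop :=
  cyc A' i j l = cyc A i j l ∧ cyc A' i l j = cyc A i l j

/-- the cyclic products of `A'` are those of `A`, exchanged -/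
def TII {k : Type*} [Mul k] {m : ℕ} (A A' : Matrix (Fin m) (Fin m) k) (i j l : Fin m) : Prop :=
  cyc A' i j l = cyc A i l j ∧ cyc A' i l j = cyc A i j l

end Pool.Agent.GQ
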