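import Pool.Agent.Helper17.GQ.Defs

/-!
# GQ, block Q4 (Loewy): from principal minors of size at most four to a diagonal similarity
-/

set_option autoImplicit false

namespace Pool.Agent.GQ

variable {k : Type*} [Field k] {m : ℕ}

theorem TI.symm {A A' : Matrix (Fin m) (Fin m) k} {i j l : Fin m} (h : TI A A' i j l) : TI A A' i l j :=
  ⟨h.2, h.1⟩

theorem TII.symm {A A' : Matrix (Fin m) (Fin m) k} {i j l : Fin m} (h : TII A A' i j l) : TII A A' i l j :=
  ⟨h.2, h.1⟩

theorem cyc_cocycle {A : Matrix (Fin m) (Fin m) k} {o j l p : Fin m} (hjp : A j p ≠ 0) (hpo : A p o ≠ 0)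
    (hlp : A l p ≠ 0) (hop : A o p ≠ 0) (hpl : A p l ≠ 0) (e1 : cyc A o j p = cyc A o p j)
    (e2 : cyc A o l p = cyc A o p l) (e3 : cyc A j l p = cyc A j p l) : cyc A o j l = cyc A o l j := by
  unfold cyc at *
  have hC : A j p * A p o * A l p * A o p * A p l ≠ 0 :=
    mul_ne_zero (mul_ne_zero (mul_ne_zero (mul_ne_zero hjp hpo) hlp) hop) hpl
  apply mul_left_cancel₀ hC
  linear_combination (A j l * A l o * A l p * A o p * A p l) * e1 + (A o p * A j o * A l o * A o p * A p l) * e3 -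
    (A o p * A j o * A j p * A p l * A l j) * e2

theorem sym_of {A A' : Matrix (Fin m) (Fin m) k} {i j l : Fin m} (h : TI A A' i j l) (h' : TII A A' i j l) :
    cyc A i j l = cyc A i l j := h.1.symm.trans h'.1

theorem TI.toII {A A' : Matrix (Fin m) (Fin m) k} {i j l : Fin m} (h : TI A A' i j l)
    (e : cyc A i j l = cyc A i l j) : TII A A' i j l := ⟨h.1.trans e, h.2.trans e.symm⟩

theorem TII.toI {A A' : Matrix (Fin m) (Fin m) k} {i j l : Fin m} (h : TII A A' i j l)
    (e : cyc A i j l = cyc A i l j) : TI A A' i j l := ⟨h.1.trans e.symm, h.2.trans e⟩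

theorem glob_one (A A' : Matrix (Fin m) (Fin m) k) (h0 : ∀ i j, i ≠ j → A i j ≠ 0)
    (one : ∀ i, A' i i = A i i) (two : ∀ i j, i ≠ j → A' i j * A' j i = A i j * A j i) (o : Fin m)
    (h : ∀ j l, j ≠ o → l ≠ o → j ≠ l → cyc A' o j l = cyc A o j l) :
    ∃ d : Fin m → k, (∀ i, d i ≠ 0) ∧ ∀ i j, d i * A' i j = A i j * d j := by
  classical
  have h0' : ∀ i j, i ≠ j → A' i j ≠ 0 := by
    intro i j hij h
    have h1 := two i j hij
    rw [h, zero_mul] at h1
    exact mul_ne_zero (h0 i j hij) (h0 j i hij.symm) h1.symm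
  refine ⟨fun j => if j = o then 1 else A' o j / A o j, ?_, ?_⟩
  · intro i
    show (if i = o then (1 : k) else A' o i / A o i) ≠ 0
    split_ifs with hi
    · exact one_ne_zero
    · exact div_ne_zero (h0' _ _ (Ne.symm hi)) (h0 _ _ (Ne.symm hi))
  · intro i j
    show (if i = o then (1 : k) else A' o i / A o i) * A' i j = A i j * (if j = o then (1 : k) else A' o j / A o j)
    by_cases hij : i = j
    · subst hij
      rw [one, mul_comm]
    by_cases hi : i = o
    · subst hi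
      rw [if_pos rfl, if_neg (Ne.symm hij), one_mul, mul_div_cancel₀ _ (h0 _ _ hij)]
    by_cases hj : j = o
    · subst hj
      rw [if_neg hi, if_pos rfl, mul_one, div_mul_eq_mul_div, two j i (Ne.symm hi), mul_div_cancel_left₀ _ (h0 _ _ (Ne.symm hi))]
    rw [if_neg hi, if_neg hj, div_mul_eq_mul_div, ← mul_div_assoc, div_eq_div_iff (h0 _ _ (Ne.symm hi)) (h0 _ _ (Ne.symm hj))]
    have h1 := h i j hi hj hij
    have h2 := two o j (Ne.symm hj)
    unfold cyc at h1
    apply mul_left_cancel₀ (h0 j o hj)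
    linear_combination A' o j * h1 - (A' o i * A' i j) * h2

theorem loewy_glob (A A' : Matrix (Fin m) (Fin m) k) (h0 : ∀ i j, i ≠ j → A i j ≠ 0)
    (one : ∀ i, A' i i = A i i) (two : ∀ i j, i ≠ j → A' i j * A' j i = A i j * A j i)
    (three : ∀ i j l, i ≠ j → i ≠ l → j ≠ l → TI A A' i j l ∨ TII A A' i j l)
    (four : ∀ i j l p, i ≠ j → i ≠ l → i ≠ p → j ≠ l → j ≠ p → l ≠ p →
      (TI A A' i j l ∧ TI A A' i j p ∧ TI A A' i l p ∧ TI A A' j l p) ∨
      (TII A A' i j l ∧ TII A A' i j p ∧ TII A A' i l p ∧ TII A A' j l p)) :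
    ∃ d : Fin m → k, (∀ i, d i ≠ 0) ∧
      ((∀ i j, d i * A' i j = A i j * d j) ∨ ∀ i j, d i * A' i j = A j i * d j) := by
  classical
  rcases Nat.eq_zero_or_pos m with hm | hm
  · subst hm
    exact ⟨fun _ => 1, fun _ => one_ne_zero, Or.inl fun i => i.elim0⟩
  let o : Fin m := ⟨0, hm⟩
  by_cases hI : ∀ j l, j ≠ o → l ≠ o → j ≠ l → TI A A' o j l
  · obtain ⟨d, hd, hd'⟩ := glob_one A A' h0 one two o fun j l hj hl hjl => (hI j l hj hl hjl).1
    exact ⟨d, hd, Or.inl hd'⟩
  by_cases hII : ∀ j l, j ≠ o → l ≠ o → j ≠ l → TII A A' o j l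
  · obtain ⟨d, hd, hd'⟩ := glob_one A.transpose A' (fun i j hij => h0 j i hij.symm) (fun i => one i)
      (fun i j hij => (two i j hij).trans (mul_comm _ _)) o fun j l hj hl hjl => by
        rw [(hII j l hj hl hjl).1]
        unfold cyc
        rw [Matrix.transpose_apply, Matrix.transpose_apply, Matrix.transpose_apply]
        ring
    exact ⟨d, hd, Or.inr hd'⟩
  exfalso
  push Not at hI hII
  obtain ⟨p, q, hp, hq, hpq, hT2⟩ := hI
  obtain ⟨j, l, hj, hl, hjl, hT1⟩ := hII
  have share : ∀ j l q, j ≠ o → l ≠ o → q ≠ o → j ≠ l → j ≠ q → ¬ TII A A' o j l → ¬ TI A A' o j q → False := by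
    intro j l q hj hl hq hjl hjq h1 h2
    by_cases hlq : l = q
    · subst hlq
      rcases three o j l (Ne.symm hj) (Ne.symm hl) hjl with h | h
      · exact h2 h
      · exact h1 h
    · rcases four o j l q (Ne.symm hj) (Ne.symm hl) (Ne.symm hq) hjl hjq hlq with h | h
      · exact h2 h.2.1
      · exact h1 h.1
  by_cases hjp : j = p
  · subst hjp
    exact share j l q hj hl hq hjl hpq hT1 hT2
  by_cases hjq : j = q
  · subst hjq
    exact share j l p hj hl hp hjl (Ne.symm hpq) hT1 fun h => hT2 h.symm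
  by_cases hlp : l = p
  · subst hlp
    exact share l j q hl hj hq (Ne.symm hjl) hpq (fun h => hT1 h.symm) hT2
  by_cases hlq : l = q
  · subst hlq
    exact share l j p hl hj hp (Ne.symm hjl) (Ne.symm hpq) (fun h => hT1 h.symm) fun h => hT2 h.symm
  have oj := Ne.symm hj
  have ol := Ne.symm hl
  have op := Ne.symm hp
  have oq := Ne.symm hq
  rcases four o j l p oj ol op hjl hjp hlp with f1 | f1
  swap
  · exact hT1 f1.1
  rcases four o j p q oj op oq hjp hjq hpq with f3 | f3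
  · exact hT2 f3.2.2.1
  rcases four o l p q ol op oq hlp hlq hpq with f4 | f4
  · exact hT2 f4.2.2.1
  rcases four o j l q oj ol oq hjl hjq hlq with f2 | f2
  swap
  · exact hT1 f2.1
  have s1 := sym_of f1.2.1 f3.1
  have s2 := sym_of f1.2.2.1 f4.1
  have s3 := sym_of f2.2.1 f3.2.1
  have n1 : cyc A o j l ≠ cyc A o l j := fun h => hT1 (f1.1.toII h)
  have n2 : cyc A o p q ≠ cyc A o q p := fun h => hT2 (f3.2.2.1.toI h)
  rcases four j l p q hjl hjp hjq hlp hlq hpq with f5 | f5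
  · -- `j p q` is symmetric
    have s5 := sym_of f5.2.2.1 f3.2.2.2
    apply n2
    -- cocycle with `j`
    have e1 : cyc A o p j = cyc A o j p := s1.symm
    have e2 : cyc A o q j = cyc A o j q := s3.symm
    have e3 : cyc A p q j = cyc A p j q := by
      unfold cyc at s5 ⊢
      linear_combination s5
    exact cyc_cocycle (h0 _ _ (Ne.symm hjp)) (h0 _ _ hj) (h0 _ _ (Ne.symm hjq)) (h0 _ _ oj) (h0 _ _ hjq) e1 e2 e3
  · have s5 := sym_of f1.2.2.2 f5.1
    apply n1
    exact cyc_cocycle (h0 _ _ hjp) (h0 _ _ hp) (h0 _ _ hlp) (h0 _ _ op) (h0 _ _ (Ne.symm hlp)) s1 s2 s5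

end Pool.Agent.GQ
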