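import Pool.Agent.Helper64.GQ.Defs

/-!
# GQ, block Q3: principal minors
-/

set_option autoImplicit false

namespace Pool.Agent.GQ

section ring

variable {R : Type*} [CommRing R] {m : ℕ}

theorem mix_mul (X Y Z : Matrix (Fin m) (Fin m) R) (S : Finset (Fin m)) :
    mix X Y S * Z = mix (X * Z) (Y * Z) S := by
  ext i j
  simp only [mix, Matrix.mul_apply, Matrix.of_apply]
  split_ifs <;> rfl

theorem mix_compl (X Y : Matrix (Fin m) (Fin m) R) (S : Finset (Fin m)) : mix X Y Sᶜ = mix Y X S := by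
  ext i j
  simp only [mix, Matrix.of_apply, Finset.mem_compl]
  split_ifs <;> first | rfl | contradiction

theorem dd_mul (X Y Z : Matrix (Fin m) (Fin m) R) (S : Finset (Fin m)) :
    dd X Y S * Z.det = dd (X * Z) (Y * Z) S := by
  unfold dd
  rw [← Matrix.det_mul, mix_mul]

theorem dd_compl (X Y : Matrix (Fin m) (Fin m) R) (S : Finset (Fin m)) : dd X Y Sᶜ = dd Y X S := by
  unfold dd
  rw [mix_compl]

theorem dd_empty (X Y : Matrix (Fin m) (Fin m) R) : dd X Y ∅ = X.det := by
  unfold dd mix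
  congr 1

theorem dd_diag (B : Matrix (Fin m) (Fin m) R) (κ : Fin m → R) (S : Finset (Fin m)) :
    dd 1 (Matrix.diagonal κ * B) S = (∏ i ∈ S, κ i) * dd 1 B S := by
  have h1 : mix 1 (Matrix.diagonal κ * B) S =
      Matrix.diagonal (fun i => if i ∈ S then κ i else 1) * mix 1 B S := by
    ext i j
    rw [Matrix.diagonal_mul]
    simp only [mix, Matrix.of_apply]
    split_ifs
    · rw [Matrix.diagonal_mul]
    · rw [one_mul]
  unfold dd
  rw [h1, Matrix.det_mul, Matrix.det_diagonal]
  congr 1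
  rw [Finset.prod_ite_mem, Finset.univ_inter]

end ring

theorem GP2.dd_ne {k : Type*} [Field k] {m : ℕ} {E E' : Matrix (Fin m) (Fin m) k} (hE : GP2 E E')
    (S : Finset (Fin m)) : dd E E' S ≠ 0 := by
  classical
  have h := hE (fun i => if i ∈ S then Sum.inr i else Sum.inl i) (by
    intro i j hij
    simp only at hij
    split_ifs at hij <;> simpa using hij)
  unfold dd mix
  convert h using 3
  funext i
  split_ifs <;> rfl

theorem principal {k : Type*} [Field k] {m : ℕ} (E E' : Matrix (Fin m) (Fin m) k) (hE : GP2 E E')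
    (κ : Fin m → k)
    (h : ∀ j S, j ∉ S → dd E E' S * dd E E' (Sᶜ.erase j) = κ j * (dd E E' (insert j S) * dd E E' Sᶜ)) :
    ∀ S, dd 1 (E' * E⁻¹)⁻¹ S = dd 1 (Matrix.diagonal κ * (E' * E⁻¹)) S := by
  classical
  have hE0 : E.det ≠ 0 := by
    rw [← dd_empty E E']
    exact hE.dd_ne ∅
  have hE0' : E'.det ≠ 0 := by
    rw [← dd_empty E' E, ← dd_compl]
    exact hE.dd_ne _
  have hEu : IsUnit E.det := isUnit_iff_ne_zero.mpr hE0
  set B := E' * E⁻¹ with hB
  have hBE : B * E = E' := by
    rw [hB, Matrix.mul_assoc, Matrix.nonsing_inv_mul _ hEu, Matrix.mul_one]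
  have hdd : ∀ S, dd E E' S = dd 1 B S * E.det := by
    intro S
    rw [dd_mul, Matrix.one_mul, hBE]
  have hB0 : B.det ≠ 0 := by
    intro h0
    apply hE0'
    rw [← hBE, Matrix.det_mul, h0, zero_mul]
  have hBu : IsUnit B.det := isUnit_iff_ne_zero.mpr hB0
  have hdn : ∀ S, dd 1 B S ≠ 0 := by
    intro S h0
    apply hE.dd_ne S
    rw [hdd, h0, zero_mul]
  have hind : ∀ S : Finset (Fin m), dd 1 B Sᶜ = (∏ i ∈ S, κ i) * dd 1 B S * B.det := by
    intro S
    induction S using Finset.induction_on with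
    | empty => rw [dd_compl, dd_empty, dd_empty, Finset.prod_empty, Matrix.det_one, one_mul, one_mul]
    | insert j S hj ih =>
      have h1 := h j S hj
      rw [hdd, hdd, hdd, hdd, ih] at h1
      rw [Finset.compl_insert, Finset.prod_insert hj]
      have h2 := hdn S
      apply mul_left_cancel₀ (mul_ne_zero h2 (mul_ne_zero hE0 hE0))
      linear_combination h1
  intro S
  rw [dd_diag]
  apply mul_right_cancel₀ hB0
  rw [← hind, dd_mul, Matrix.nonsing_inv_mul _ hBu, Matrix.one_mul, dd_compl]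

end Pool.Agent.GQ
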