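import Pool.Agent.Helper17.GQ.Defs

/-!
# GQ, block Q4 (Loewy): principal minors of size at most three
-/

set_option autoImplicit false

namespace Pool.Agent.GQ

/-- the determinant with rows of the unit matrix outside the image of `f` is a principal minor -/
theorem dd_one_image {R : Type*} [CommRing R] {m t : ℕ} (A : Matrix (Fin m) (Fin m) R) (f : Fin t → Fin m)
    (hf : Function.Injective f) : dd 1 A (Finset.univ.image f) = (A.submatrix f f).det := by
  classical
  unfold dd
  rw [Matrix.twoBlockTriangular_det (mix 1 A (Finset.univ.image f)) (fun i => i ∈ Finset.univ.image f) (by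
    intro i hi j hj
    show (if i ∈ Finset.univ.image f then A i else (1 : Matrix (Fin m) (Fin m) R) i) j = 0
    rw [if_neg hi]
    exact Matrix.one_apply_ne fun h => hi (h ▸ hj))]
  have h1 : (Matrix.toSquareBlockProp (mix 1 A (Finset.univ.image f)) fun i => ¬ i ∈ Finset.univ.image f) = 1 := by
    ext i j
    show (if i.1 ∈ Finset.univ.image f then A i.1 else (1 : Matrix (Fin m) (Fin m) R) i.1) j.1 = _
    rw [if_neg i.2, Matrix.one_apply, Matrix.one_apply]
    congr 1
    exact propext ⟨fun h => Subtype.ext h, fun h => congrArg Subtype.val h⟩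
  rw [h1, Matrix.det_one, mul_one]
  let e : Fin t ≃ {i // i ∈ Finset.univ.image f} :=
    Equiv.ofBijective (fun i => ⟨f i, Finset.mem_image_of_mem f (Finset.mem_univ i)⟩)
      ⟨fun a b h => hf (congrArg Subtype.val h), fun b => by
        obtain ⟨a, -, ha⟩ := Finset.mem_image.1 b.2
        exact ⟨a, Subtype.ext ha⟩⟩
  have h2 : (Matrix.toSquareBlockProp (mix 1 A (Finset.univ.image f)) fun i => i ∈ Finset.univ.image f).det =
      ((Matrix.toSquareBlockProp (mix 1 A (Finset.univ.image f)) fun i => i ∈ Finset.univ.image f).submatrix e e).det := by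
    symm
    convert Matrix.det_submatrix_equiv_self e
      (Matrix.toSquareBlockProp (mix 1 A (Finset.univ.image f)) fun i => i ∈ Finset.univ.image f)
  rw [h2]
  congr 1
  ext i j
  show (if f i ∈ Finset.univ.image f then A (f i) else (1 : Matrix (Fin m) (Fin m) R) (f i)) (f j) = _
  rw [if_pos (Finset.mem_image_of_mem f (Finset.mem_univ i))]
  rfl

variable {k : Type*} [Field k] {m : ℕ} {A A' : Matrix (Fin m) (Fin m) k}

theorem minor_one (h : ∀ S, dd 1 A' S = dd 1 A S) (i : Fin m) : A' i i = A i i := by
  have h1 := h (Finset.univ.image ![i])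
  rw [dd_one_image _ _ (by intro a b _; exact Subsingleton.elim a b), dd_one_image _ _ (by intro a b _; exact Subsingleton.elim a b)] at h1
  rw [Matrix.det_fin_one, Matrix.det_fin_one] at h1
  exact h1

theorem minor_two (h : ∀ S, dd 1 A' S = dd 1 A S) (i j : Fin m) (hij : i ≠ j) : A' i j * A' j i = A i j * A j i := by
  have hf : Function.Injective ![i, j] := by
    intro a b hab
    fin_cases a <;> fin_cases b <;> simp_all
  have h1 := h (Finset.univ.image ![i, j])
  rw [dd_one_image _ _ hf, dd_one_image _ _ hf, Matrix.det_fin_two, Matrix.det_fin_two] at h1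
  simp only [Matrix.submatrix_apply, Matrix.cons_val_zero, Matrix.cons_val_one] at h1
  rw [minor_one h, minor_one h] at h1
  linear_combination -h1

theorem minor_three (h : ∀ S, dd 1 A' S = dd 1 A S) (i j l : Fin m) (hij : i ≠ j) (hil : i ≠ l) (hjl : j ≠ l) :
    TI A A' i j l ∨ TII A A' i j l := by
  have hf : Function.Injective ![i, j, l] := by
    intro a b hab
    fin_cases a <;> fin_cases b <;> simp_all
  have h1 := h (Finset.univ.image ![i, j, l])
  rw [dd_one_image _ _ hf, dd_one_image _ _ hf, Matrix.det_fin_three, Matrix.det_fin_three] at h1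
  simp only [Matrix.submatrix_apply, Matrix.cons_val_zero, Matrix.cons_val_one, Matrix.cons_val] at h1
  rw [minor_one h, minor_one h, minor_one h] at h1
  have e1 := minor_two h i j hij
  have e2 := minor_two h i l hil
  have e3 := minor_two h j l hjl
  have hsum : cyc A' i j l + cyc A' i l j = cyc A i j l + cyc A i l j := by
    unfold cyc
    linear_combination h1 + A l l * e1 + A j j * e2 + A i i * e3
  have hprod : cyc A' i j l * cyc A' i l j = cyc A i j l * cyc A i l j := by
    unfold cyc
    linear_combination (A' i l * A' l i * (A' j l * A' l j)) * e1 + (A i j * A j i * (A' j l * A' l j)) * e2 +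
      (A i j * A j i * (A i l * A l i)) * e3
  have h2 : (cyc A' i j l - cyc A i j l) * (cyc A' i j l - cyc A i l j) = 0 := by
    linear_combination cyc A' i j l * hsum - hprod
  rcases mul_eq_zero.1 h2 with h3 | h3
  · left
    have h4 := sub_eq_zero.1 h3
    exact ⟨h4, by rw [h4] at hsum; exact add_left_cancel hsum⟩
  · right
    have h4 := sub_eq_zero.1 h3
    refine ⟨h4, ?_⟩
    rw [h4] at hsum
    linear_combination hsum

end Pool.Agent.GQ
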